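import Pool.Agent.H73.CBF.Stmts

/-!
Board `cbe`, row XFR: the theorem on `Fin n → ℂ`.
-/

set_option autoImplicit false

open Set Filter Topology

namespace Pool.CBF

namespace H81XFR

open Pool.CBE MvPolynomial

/-- The coordinates of the map. -/
noncomputable def pol {n : ℕ} (d : ℕ) (T : Finset (E n)) (w : E n → E n) (i : Fin n) :
    MvPolynomial (Fin n) ℂ :=
  ∑ ζ ∈ T, C (w ζ i) * (∑ k, C ((starRingEnd ℂ) (ζ k)) * X k) ^ d

theorem pol_hom {n : ℕ} (d : ℕ) (T : Finset (E n)) (w : E n → E n) (i : Fin n) :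
    (pol d T w i).IsHomogeneous d := by
  unfold pol
  refine IsHomogeneous.sum _ _ _ fun ζ _ => ?_
  have h1 : (∑ k : Fin n, C ((starRingEnd ℂ) (ζ k)) * X k : MvPolynomial (Fin n) ℂ).IsHomogeneous
      1 := by
    refine IsHomogeneous.sum _ _ _ fun k _ => ?_
    have h2 := (isHomogeneous_C (Fin n) ((starRingEnd ℂ) (ζ k))).mul (isHomogeneous_X ℂ k)
    rwa [zero_add] at h2
  have h3 := (isHomogeneous_C (Fin n) (w ζ i)).mul (h1.pow d)
  rwa [zero_add, one_mul] at h3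

theorem pol_eval {n : ℕ} (d : ℕ) (T : Finset (E n)) (w : E n → E n) (i : Fin n) (x : E n) :
    MvPolynomial.eval (fun k => x k) (pol d T w i) = fm d T w x i := by
  unfold pol fm
  rw [map_sum]
  have h0 : (∑ ζ ∈ T, (inner ℂ ζ x : ℂ) ^ d • w ζ) i = ∑ ζ ∈ T, ((inner ℂ ζ x : ℂ) ^ d • w ζ) i := by
    simp
  rw [h0]
  refine Finset.sum_congr rfl fun ζ _ => ?_
  have h1 : (inner ℂ ζ x : ℂ) = ∑ k, (starRingEnd ℂ) (ζ k) * x k := by
    rw [PiLp.inner_apply]
    refine Finset.sum_congr rfl fun k _ => ?_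
    rw [RCLike.inner_apply, mul_comm]
  rw [h1]
  simp only [map_mul, map_pow, map_sum, eval_C, eval_X, PiLp.smul_apply, smul_eq_mul]
  ring

end H81XFR

open H81XFR Pool.CBE in
theorem XFR_thm (h1 : Pool.CBE.THMStmt) (h2 : Pool.CBE.FDRStmt) : XFRStmt := by
  intro n a hn ha0 ha1
  obtain ⟨d, T, w, ρ, hd, hρ, hHol, hgr, hcirc, hbd, hcon, hmap, hprop, x, y, hx, hy, hxy, hfxy⟩ :=
    h1 n a hn ha0 ha1
  let e : E n ≃L[ℂ] (Fin n → ℂ) := EuclideanSpace.equiv (Fin n) ℂ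
  let B : (Fin n → ℂ) ≃L[ℝ] E n := (PiLp.continuousLinearEquiv 2 ℝ (fun _ : Fin n => ℂ)).symm
  have hBe : ∀ z, B z = e.symm z := fun _ => rfl
  have hfd : ∀ z, fderiv ℝ (fun z => ρ (e.symm z)) z =
      (fderiv ℝ ρ (e.symm z)).comp (B : (Fin n → ℂ) →L[ℝ] E n) :=
    fun z => B.comp_right_fderiv (f := ρ) (x := z)
  have himg : {z : Fin n → ℂ | ρ (e.symm z) < 0} = e '' {z | ρ z < 0} := by
    ext z
    constructor
    · intro hz
      exact ⟨e.symm z, hz, e.apply_symm_apply z⟩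
    · rintro ⟨u, hu, rfl⟩
      show ρ (e.symm (e u)) < 0
      rw [e.symm_apply_apply]
      exact hu
  have hdiff := (h2 n d T w (by omega)).1.differentiable (by norm_num)
  refine ⟨fun z => ρ (e.symm z), fun z => e (fm d T w (e.symm z)), ?_, ?_, ?_, ?_, ?_, ?_, ?_, ?_,
    ?_, ?_, ?_⟩
  · exact hρ.comp B.contDiff
  · intro R
    obtain ⟨L, hL⟩ := hHol (‖(B : (Fin n → ℂ) →L[ℝ] E n)‖ * R)
    refine ⟨|L| * ‖(B : (Fin n → ℂ) →L[ℝ] E n)‖ ^ a * ‖(B : (Fin n → ℂ) →L[ℝ] E n)‖, ?_⟩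
    intro z z' hz hz'
    rw [hfd, hfd, ← ContinuousLinearMap.sub_comp]
    have hb0 : 0 ≤ ‖(B : (Fin n → ℂ) →L[ℝ] E n)‖ := norm_nonneg _
    have hle : ∀ u : Fin n → ℂ, ‖e.symm u‖ ≤ ‖(B : (Fin n → ℂ) →L[ℝ] E n)‖ * ‖u‖ :=
      fun u => (B : (Fin n → ℂ) →L[ℝ] E n).le_opNorm u
    have h3 := hL (e.symm z) (e.symm z')
      ((hle z).trans (mul_le_mul_of_nonneg_left hz hb0))
      ((hle z').trans (mul_le_mul_of_nonneg_left hz' hb0))
    have h4 : ‖e.symm z - e.symm z'‖ ^ a ≤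
        (‖(B : (Fin n → ℂ) →L[ℝ] E n)‖ * ‖z - z'‖) ^ a := by
      rw [← map_sub]
      exact Real.rpow_le_rpow (norm_nonneg _) (hle _) ha0.le
    rw [Real.mul_rpow hb0 (norm_nonneg _)] at h4
    have h5 : ‖fderiv ℝ ρ (e.symm z) - fderiv ℝ ρ (e.symm z')‖ ≤
        |L| * (‖(B : (Fin n → ℂ) →L[ℝ] E n)‖ ^ a * ‖z - z'‖ ^ a) := by
      refine h3.trans ?_
      refine (mul_le_mul_of_nonneg_right (le_abs_self L)
        (Real.rpow_nonneg (norm_nonneg _) _)).trans ?_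
      exact mul_le_mul_of_nonneg_left h4 (abs_nonneg L)
    calc ‖(fderiv ℝ ρ (e.symm z) - fderiv ℝ ρ (e.symm z')).comp
          (B : (Fin n → ℂ) →L[ℝ] E n)‖
        ≤ ‖fderiv ℝ ρ (e.symm z) - fderiv ℝ ρ (e.symm z')‖ *
            ‖(B : (Fin n → ℂ) →L[ℝ] E n)‖ := ContinuousLinearMap.opNorm_comp_le _ _
      _ ≤ |L| * (‖(B : (Fin n → ℂ) →L[ℝ] E n)‖ ^ a * ‖z - z'‖ ^ a) *
            ‖(B : (Fin n → ℂ) →L[ℝ] E n)‖ := mul_le_mul_of_nonneg_right h5 hb0
      _ = _ := by ring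
  · intro z hz h3
    refine hgr (e.symm z) hz ?_
    rw [hfd] at h3
    ext v
    have h4 := congrArg (fun A : (Fin n → ℂ) →L[ℝ] ℝ => A (e v)) h3
    have h5 : (fderiv ℝ ρ (e.symm z)) (e.symm (e v)) = 0 := h4
    rw [e.symm_apply_apply] at h5
    simpa using h5
  · rw [himg]
    exact (e : E n →L[ℂ] (Fin n → ℂ)).lipschitz.isBounded_image hbd
  · rw [himg]
    exact hcon.image _ e.continuous.continuousOn
  · intro c z hc hz
    show ρ (e.symm (c • z)) < 0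
    rw [map_smul]
    exact hcirc c _ hc hz
  · refine ⟨d, pol d T w, hd, pol_hom d T w, fun z i => ?_⟩
    exact (pol_eval d T w i (e.symm z)).symm
  · exact e.differentiable.comp (hdiff.comp e.symm.differentiable)
  · intro z hz
    show ρ (e.symm (e (fm d T w (e.symm z)))) < 0
    rw [e.symm_apply_apply]
    exact hmap hz
  · intro L hLs hLc
    have h3 := hprop (e.symm '' L) (by
      rintro _ ⟨z, hz, rfl⟩
      exact hLs hz) (hLc.image e.symm.continuous)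
    have h4 : {z : Fin n → ℂ | ρ (e.symm z) < 0} ∩
        (fun z => e (fm d T w (e.symm z))) ⁻¹' L =
        e '' ({z | ρ z < 0} ∩ fm d T w ⁻¹' (e.symm '' L)) := by
      ext z
      constructor
      · rintro ⟨hz1, hz2⟩
        refine ⟨e.symm z, ⟨hz1, ⟨_, hz2, ?_⟩⟩, e.apply_symm_apply z⟩
        exact e.symm_apply_apply _
      · rintro ⟨u, ⟨hu1, ⟨v, hv, hv2⟩⟩, rfl⟩
        refine ⟨?_, ?_⟩
        · show ρ (e.symm (e u)) < 0
          rw [e.symm_apply_apply]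
          exact hu1
        · show e (fm d T w (e.symm (e u))) ∈ L
          rw [e.symm_apply_apply, ← hv2, e.apply_symm_apply]
          exact hv
    rw [h4]
    exact h3.image e.continuous
  · intro hinj
    refine hxy (e.injective (hinj ?_ ?_ ?_))
    · show ρ (e.symm (e x)) < 0
      rw [e.symm_apply_apply]
      exact hx
    · show ρ (e.symm (e y)) < 0
      rw [e.symm_apply_apply]
      exact hy
    · show e (fm d T w (e.symm (e x))) = e (fm d T w (e.symm (e y)))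
      rw [e.symm_apply_apply, e.symm_apply_apply, hfxy]

end Pool.CBF
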